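import Pool.Agent.Helper26.WR.Stmts

set_option autoImplicit false

/-! # The number `N_P` of a generalised wreath product -/

namespace Pool.Agent.Helper26.WR

open Pool.Agent.Helper21.DN

universe u

theorem fin_condSet_iso {k : Type u} [Field k] {P P' : Type} [Group P] [Group P'] (e : P ≃* P')
    {c : ℝ} (hc : c ∈ condSet k P) : c ∈ condSet k P' := by
  obtain ⟨L, i1, i2, hfd, hgal, ⟨i⟩, rfl⟩ := hc
  exact ⟨L, i1, i2, hfd, hgal, ⟨i.trans e⟩, rfl⟩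

theorem fin_cop {p : ℕ} [Fact p.Prime] {a N : ℕ} {x A : ℤ} (hx : ¬ (p : ℤ) ∣ x)
    (h : (N : ℤ) * x = A * ((p ^ a : ℕ) : ℤ)) : p ^ a ∣ N := by
  have hp : Prime (p : ℤ) := Nat.prime_iff_prime_int.mp Fact.out
  have hcop : IsCoprime ((p ^ a : ℕ) : ℤ) x := by
    push_cast
    apply IsCoprime.pow_left
    exact (Prime.coprime_iff_not_dvd hp).2 hx
  have h1 : ((p ^ a : ℕ) : ℤ) ∣ (N : ℤ) * x := ⟨A, by rw [h]; ring⟩
  have h2 := hcop.dvd_of_dvd_mul_right h1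
  exact_mod_cast h2

/-- the general step -/
theorem fin_step {p : ℕ} [Fact p.Prime] {S : Set ℝ} {q N NB d m : ℕ} {a b : ℕ} (hq : q = p ^ a)
    (hNB : NB = p ^ b) (hS : ∀ C ∈ S, ∃ a : ℤ, (N : ℝ) * C = (a : ℝ)) {c : ℝ} {r : ℤ}
    (hr : (NB : ℝ) * c = (r : ℝ)) (hC : ((m : ℝ) * c + (d : ℝ)) / (q : ℝ) ∈ S)
    (hx : ¬ (p : ℤ) ∣ (m : ℤ) * r + (d : ℤ) * (NB : ℤ)) : q * NB ∣ N := by
  obtain ⟨A, hA⟩ := hS _ hC
  have hp : 0 < p := (Fact.out : p.Prime).pos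
  have hq0 : (q : ℝ) ≠ 0 := by
    rw [hq]
    have : 0 < p ^ a := pow_pos hp a
    exact_mod_cast this.ne'
  have h1 : (N : ℝ) * ((m : ℝ) * c + (d : ℝ)) = (A : ℝ) * (q : ℝ) := by
    rw [← hA]
    field_simp
  have h2 : (N : ℝ) * ((m : ℝ) * (r : ℝ) + (d : ℝ) * (NB : ℝ)) =
      (A : ℝ) * ((q : ℝ) * (NB : ℝ)) := by
    rw [← hr]
    calc (N : ℝ) * ((m : ℝ) * ((NB : ℝ) * c) + (d : ℝ) * (NB : ℝ)) =
        ((N : ℝ) * ((m : ℝ) * c + (d : ℝ))) * (NB : ℝ) := by ring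
      _ = (A : ℝ) * ((q : ℝ) * (NB : ℝ)) := by rw [h1]; ring
  have h3 : (N : ℤ) * ((m : ℤ) * r + (d : ℤ) * (NB : ℤ)) = A * ((p ^ (a + b) : ℕ) : ℤ) := by
    have h4 : ((p ^ (a + b) : ℕ) : ℤ) = (q : ℤ) * (NB : ℤ) := by
      rw [hq, hNB, pow_add]
      push_cast
      ring
    rw [h4]
    exact_mod_cast h2
  have h5 := fin_cop hx h3
  rw [hq, hNB, ← pow_add]
  exact h5

/-- the lower bound, general case -/
theorem fin_low2 {p : ℕ} [Fact p.Prime] {S0 S : Set ℝ} {q N NB d : ℕ} {a b : ℕ}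
    (hq : q = p ^ a) (hNB : NB = p ^ b)
    (hS : ∀ C ∈ S, ∃ a : ℤ, (N : ℝ) * C = (a : ℝ))
    (hS0 : ∀ c ∈ S0, ∃ a : ℤ, (NB : ℝ) * c = (a : ℝ))
    (hmin : ∀ M : ℕ, 0 < M → (∀ c ∈ S0, ∃ a : ℤ, (M : ℝ) * c = (a : ℝ)) → NB ∣ M)
    (hint : ∃ n : ℕ, ¬ p ∣ n ∧ (n : ℝ) ∈ S0) (hd : q ≠ 1 → ¬ p ∣ d)
    (hL : ∀ c ∈ S0, ∀ (e : ℤ) (a : ℕ), 1 ≤ a → ¬ (p : ℤ) ∣ e →
      ∃ m : ℕ, ((p ^ a : ℕ) : ℤ) ∣ (m : ℤ) - e ∧ ((m : ℝ) * c + (d : ℝ)) / (q : ℝ) ∈ S)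
    (hc : ¬ (p = 2 ∧ q ≠ 1 ∧ ∀ c ∈ S0, ∃ n : ℤ, c = 2 * (n : ℝ) + 1)) :
    q * NB ∣ N := by
  have hp : p.Prime := Fact.out
  have hpp : Prime (p : ℤ) := Nat.prime_iff_prime_int.mp hp
  have hp1 : ¬ (p : ℤ) ∣ 1 := by
    intro h
    have := Int.isUnit_iff.1 (isUnit_of_dvd_one h)
    have h2 := hp.two_le
    omega
  rcases Nat.eq_zero_or_pos b with hb | hb
  · -- NB = 1
    subst hb
    rw [pow_zero] at hNB
    by_cases hq1 : q = 1
    · rw [hq1, hNB]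
      simp
    have hd' := hd hq1
    have hdz : ¬ (p : ℤ) ∣ (d : ℤ) := by
      intro h
      exact hd' (by exact_mod_cast h)
    by_cases hp2 : p = 2
    · -- p = 2
      have hex : ∃ c ∈ S0, ¬ ∃ n : ℤ, c = 2 * (n : ℝ) + 1 := by
        by_contra hcon
        push Not at hcon
        apply hc
        refine ⟨hp2, hq1, ?_⟩
        intro c hcS
        exact hcon c hcS
      obtain ⟨c, hcS, hcn⟩ := hex
      obtain ⟨r, hr⟩ := hS0 c hcS
      have hr' : c = (r : ℝ) := by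
        rw [← hr, hNB]
        simp
      have hre : Even r := by
        by_contra hodd
        rw [Int.not_even_iff_odd] at hodd
        obtain ⟨n, hn⟩ := hodd
        apply hcn
        refine ⟨n, ?_⟩
        rw [hr', hn]
        push_cast
        ring
      obtain ⟨m, hm1, hm2⟩ := hL c hcS 1 1 le_rfl hp1
      apply fin_step (b := 0) hq (by rw [hNB, pow_zero]) hS hr hm2
      rw [hNB]
      intro hdvd
      have h2 : (p : ℤ) ∣ (m : ℤ) * r := by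
        obtain ⟨t, ht⟩ := hre
        rw [hp2, ht]
        exact ⟨m * t, by push_cast; ring⟩
      have h3 : (p : ℤ) ∣ (d : ℤ) * ((1 : ℕ) : ℤ) := (Int.dvd_add_right h2).1 hdvd
      apply hdz
      simpa using h3
    · -- p odd
      obtain ⟨n, hn, hnS⟩ := hint
      have hnz : ¬ (p : ℤ) ∣ (n : ℤ) := by
        intro h
        exact hn (by exact_mod_cast h)
      have hex : ∃ e : ℤ, ¬ (p : ℤ) ∣ e ∧ ¬ (p : ℤ) ∣ e * n + d := by
        by_cases h1 : (p : ℤ) ∣ 1 * (n : ℤ) + d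
        · refine ⟨2, ?_, ?_⟩
          · intro h2
            have h3 : p ∣ 2 := by exact_mod_cast h2
            exact hp2 ((Nat.prime_dvd_prime_iff_eq hp Nat.prime_two).1 h3)
          · intro h2
            apply hnz
            have h3 := dvd_sub h2 h1
            have h4 : (2 * (n : ℤ) + d) - (1 * (n : ℤ) + d) = n := by ring
            rwa [h4] at h3
        · exact ⟨1, hp1, h1⟩
      obtain ⟨e, he1, he2⟩ := hex
      obtain ⟨m, hm1, hm2⟩ := hL n hnS e 1 le_rfl he1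
      have hr : (NB : ℝ) * (n : ℝ) = ((n : ℤ) : ℝ) := by
        rw [hNB]
        simp
      apply fin_step (b := 0) hq (by rw [hNB, pow_zero]) hS hr hm2
      rw [hNB]
      intro hdvd
      apply he2
      rw [pow_one] at hm1
      have h3 : (p : ℤ) ∣ ((m : ℤ) - e) * n := Dvd.dvd.mul_right hm1 _
      have h4 := dvd_sub hdvd h3
      have h5 : ((m : ℤ) * n + (d : ℤ) * ((1 : ℕ) : ℤ)) - ((m : ℤ) - e) * n = e * n + d := by
        push_cast
        ring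
      rwa [h5] at h4
  · -- NB > 1
    have hex : ∃ c ∈ S0, ∃ r : ℤ, (NB : ℝ) * c = (r : ℝ) ∧ ¬ (p : ℤ) ∣ r := by
      by_contra hcon
      push Not at hcon
      have hNBp : NB = p * p ^ (b - 1) := by
        rw [hNB, ← pow_succ']
        congr 1
        omega
      have hpos : 0 < p ^ (b - 1) := pow_pos hp.pos _
      have h1 := hmin (p ^ (b - 1)) hpos (by
        intro c hcS
        obtain ⟨r, hr⟩ := hS0 c hcS
        obtain ⟨t, ht⟩ := hcon c hcS r hr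
        refine ⟨t, ?_⟩
        have hp0 : (p : ℝ) ≠ 0 := by
          have := hp.pos
          exact_mod_cast this.ne'
        have h2 : (p : ℝ) * (((p ^ (b - 1) : ℕ) : ℝ) * c) = (p : ℝ) * (t : ℝ) := by
          have h3 : (NB : ℝ) = (p : ℝ) * ((p ^ (b - 1) : ℕ) : ℝ) := by
            rw [hNBp]
            push_cast
            ring
          rw [h3, ht] at hr
          push_cast at hr ⊢
          rw [← hr]
          ring
        exact mul_left_cancel₀ hp0 h2)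
      have h2 := Nat.le_of_dvd hpos h1
      rw [hNBp] at h2
      have h3 := hp.two_le
      nlinarith
    obtain ⟨c, hcS, r, hr, hpr⟩ := hex
    obtain ⟨m, hm1, hm2⟩ := hL c hcS 1 1 le_rfl hp1
    apply fin_step hq hNB hS hr hm2
    intro hdvd
    have hpNB : (p : ℤ) ∣ (NB : ℤ) := by
      rw [hNB]
      have : p ∣ p ^ b := dvd_pow_self p (by omega)
      exact_mod_cast this
    have h1 : (p : ℤ) ∣ (d : ℤ) * (NB : ℤ) := Dvd.dvd.mul_left hpNB _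
    have h2 : (p : ℤ) ∣ (m : ℤ) * r := (Int.dvd_add_left h1).1 hdvd
    rcases hpp.dvd_or_dvd h2 with h3 | h3
    · apply hp1
      rw [pow_one] at hm1
      have h4 := dvd_sub h3 hm1
      have h5 : (m : ℤ) - ((m : ℤ) - 1) = 1 := by ring
      rwa [h5] at h4
    · exact hpr h3

/-- the lower bound for `p = 2` when all the conductors are odd -/
theorem fin_low1 {S0 S : Set ℝ} {q N d : ℕ} {a : ℕ}
    (hq : q = 2 ^ a) (hq1 : q ≠ 1)
    (hS : ∀ C ∈ S, ∃ a : ℤ, (N : ℝ) * C = (a : ℝ))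
    (hint : ∃ n : ℕ, ¬ 2 ∣ n ∧ (n : ℝ) ∈ S0) (hd : ¬ 2 ∣ d)
    (hL : ∀ c ∈ S0, ∀ (e : ℤ) (a : ℕ), 1 ≤ a → ¬ (2 : ℤ) ∣ e →
      ∃ m : ℕ, ((2 ^ a : ℕ) : ℤ) ∣ (m : ℤ) - e ∧ ((m : ℝ) * c + (d : ℝ)) / (q : ℝ) ∈ S) :
    q / 2 ∣ N := by
  have ha : a ≠ 0 := by
    rintro rfl
    exact hq1 (by rw [hq, pow_zero])
  obtain ⟨a', rfl⟩ : ∃ a', a = a' + 1 := ⟨a - 1, by omega⟩
  have hq2 : q = 2 * 2 ^ a' := by rw [hq, pow_succ]; ring
  have hqd : q / 2 = 2 ^ a' := by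
    rw [hq2]
    simp
  rw [hqd]
  obtain ⟨n, hn, hnS⟩ := hint
  obtain ⟨n', hn'⟩ : ∃ n' : ℕ, n = 2 * n' + 1 := ⟨n / 2, by omega⟩
  obtain ⟨d', hd'⟩ : ∃ d' : ℕ, d = 2 * d' + 1 := ⟨d / 2, by omega⟩
  have he : ¬ (2 : ℤ) ∣ (n : ℤ) * (2 - d) := by
    intro h
    rcases Int.prime_two.dvd_or_dvd h with h1 | h1
    · omega
    · omega
  obtain ⟨m, hm1, hm2⟩ := hL n hnS ((n : ℤ) * (2 - d)) 2 (by norm_num) he
  obtain ⟨A, hA⟩ := hS _ hm2
  have hq0 : (q : ℝ) ≠ 0 := by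
    rw [hq]
    positivity
  have h1 : (N : ℝ) * ((m : ℝ) * n + (d : ℝ)) = (A : ℝ) * (q : ℝ) := by
    rw [← hA]
    field_simp
  have h2 : (N : ℤ) * ((m : ℤ) * n + (d : ℤ)) = A * (q : ℤ) := by exact_mod_cast h1
  obtain ⟨t, ht⟩ := hm1
  have hmv : (m : ℤ) = 4 * t + n * (2 - d) := by
    push_cast at ht
    linarith
  have hx : (m : ℤ) * n + (d : ℤ) =
      2 * (2 * (t * n) + ((2 * n' * n' + 2 * n') * (1 - 2 * d') + 1)) := by
    rw [hmv, hd', hn']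
    push_cast
    ring
  have hodd : ¬ (2 : ℤ) ∣ 2 * (t * n) + ((2 * n' * n' + 2 * n') * (1 - 2 * d') + 1) := by
    intro h
    have h3 : (2 : ℤ) ∣ 2 * (t * n) := ⟨_, rfl⟩
    have h4 := (Int.dvd_add_right h3).1 h
    have h5 : (2 : ℤ) ∣ (2 * n' * n' + 2 * n') * (1 - 2 * d') :=
      ⟨(n' * n' + n') * (1 - 2 * d'), by ring⟩
    have h6 := (Int.dvd_add_right h5).1 h4
    omega
  have h3 : (N : ℤ) * (2 * (t * n) + ((2 * n' * n' + 2 * n') * (1 - 2 * d') + 1)) =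
      A * ((2 ^ a' : ℕ) : ℤ) := by
    rw [hx, hq2] at h2
    push_cast at h2 ⊢
    have h4 : (2 : ℤ) ≠ 0 := by norm_num
    apply mul_left_cancel₀ h4
    linarith
  have h2p : Fact (Nat.Prime 2) := ⟨Nat.prime_two⟩
  exact fin_cop (p := 2) (by exact_mod_cast hodd) h3

/-- the upper bound -/
theorem fin_up {p : ℕ} [Fact p.Prime] {k : Type u} [Field k] {B : Type} [Group B] {q d a : ℕ}
    (hq : q = p ^ a) {c c' : ℝ} (hc' : c' ∈ condSet k B)
    (hS0 : ∀ c ∈ condSet k B, ∃ a : ℤ, (NP k B : ℝ) * c = (a : ℝ))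
    (he : (q : ℝ) * c = c' + (d : ℝ)) (hd : q ≠ 1 → ¬ p ∣ d) :
    ∃ z : ℤ, (fac p k q B : ℝ) * c = (z : ℝ) := by
  unfold fac
  split_ifs with h
  · obtain ⟨hp2, hq1, hall⟩ := h
    subst hp2
    obtain ⟨n, hn⟩ := hall c' hc'
    have hd1 := hd hq1
    obtain ⟨d', hd'⟩ : ∃ d' : ℕ, d = 2 * d' + 1 := ⟨d / 2, by omega⟩
    have ha : a ≠ 0 := by
      rintro rfl
      exact hq1 (by rw [hq, pow_zero])
    obtain ⟨a', rfl⟩ : ∃ a', a = a' + 1 := ⟨a - 1, by omega⟩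
    have hq2 : q = 2 * 2 ^ a' := by rw [hq, pow_succ]; ring
    have hqd : q / 2 = 2 ^ a' := by
      rw [hq2]
      simp
    refine ⟨n + d' + 1, ?_⟩
    rw [hqd]
    have h2 : (2 : ℝ) * (((2 ^ a' : ℕ) : ℝ) * c) = 2 * ((n : ℝ) + d' + 1) := by
      have h3 : (q : ℝ) = 2 * ((2 ^ a' : ℕ) : ℝ) := by
        rw [hq2]
        push_cast
        ring
      rw [h3, hn, hd'] at he
      push_cast at he ⊢
      linarith
    have h4 : (2 : ℝ) ≠ 0 := by norm_num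
    have h5 := mul_left_cancel₀ h4 h2
    rw [h5]
    push_cast
    ring
  · obtain ⟨z, hz⟩ := hS0 c' hc'
    refine ⟨z + NP k B * d, ?_⟩
    push_cast
    rw [← hz]
    calc (q : ℝ) * (NP k B : ℝ) * c = (NP k B : ℝ) * ((q : ℝ) * c) := by ring
      _ = (NP k B : ℝ) * c' + (NP k B : ℝ) * (d : ℝ) := by rw [he]; ring

theorem fin_fac_pos {p : ℕ} {k : Type u} [Field k] {B : Type} [Group B] {q : ℕ}
    (hq : 0 < q) (hN : 0 < NP k B) : 0 < fac p k q B := by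
  unfold fac
  split_ifs with h
  · have := h.2.1
    omega
  · positivity

theorem st_FIN (h1 : ST_NPC.{u}) (h2 : ST_INTC.{u}) (h3 : ST_REC.{u}) (h4 : ST_LBW.{u})
    (h5 : ST_ISOG) (h6 : ST_CENG) (hNPU : ST_NPU.{u}) : ST_FIN.{u} := by
  intro p _ k _ _ _ J _ _ W B _ _ _ _ _ Q _ _ _ _ hB hQ hfaith
  have hpr : p.Prime := Fact.out
  obtain ⟨hfin, hpg, hj⟩ := h5 p J W B Q hB hQ
  have hntP : Nontrivial (WreathProduct W B Q) := (hj (Classical.arbitrary J)).1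
  have hfinP : Finite (WreathProduct W B Q) := hfin
  obtain ⟨hNpos, hNdvd, hNint⟩ := h1 p k (WreathProduct W B Q) hpg hntP
  have hcardW : ∀ j : J, ∃ a : ℕ, Nat.card (W j) = p ^ a := by
    intro j
    obtain ⟨w⟩ := (inferInstance : Nonempty (W j))
    obtain ⟨a, ha⟩ := hQ.card_orbit w
    refine ⟨a, ?_⟩
    rw [← ha, MulAction.orbit_eq_univ]
    exact (Nat.card_congr (Equiv.Set.univ (W j))).symm
  have hWpos : ∀ j : J, 0 < Nat.card (W j) := fun j => Nat.card_pos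
  have hBN : ∀ j : J, 0 < NP k (B j) ∧ NP k (B j) ∣ Nat.card (B j) ∧
      ∀ c ∈ condSet k (B j), ∃ a : ℤ, (NP k (B j) : ℝ) * c = (a : ℝ) :=
    fun j => h1 p k (B j) (hB j) inferInstance
  apply Nat.dvd_antisymm
  · -- upper bound
    have hlcm : 0 < Finset.univ.lcm fun j => fac p k (Nat.card (W j)) (B j) := by
      apply Nat.pos_of_ne_zero
      rw [Ne, Finset.lcm_eq_zero_iff]
      rintro ⟨j, _, hj0⟩
      exact (fin_fac_pos (p := p) (hWpos j) (hBN j).1).ne' hj0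
    apply (hNPU k (WreathProduct W B Q) _ hlcm _).2
    intro c hc
    obtain ⟨z, hzc, hzo, hz⟩ := h3 p k (WreathProduct W B Q) hpg hntP c hc
    have hz1 : z ≠ 1 := by
      rintro rfl
      rw [orderOf_one] at hzo
      exact hpr.one_lt.ne hzo
    obtain ⟨j, H, f, hzH, hfs, hfz, hidx⟩ := h6 J W B Q hfaith z hzc hz1
    obtain ⟨c', hc', d, hd1, hd2⟩ := hz H (B j) f hfs hzH hfz
    obtain ⟨a, ha⟩ := hcardW j
    rw [hidx] at hd1
    obtain ⟨x, hx⟩ := fin_up (p := p) (k := k) (B := B j) ha hc' (hBN j).2.2 hd1 (by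
      intro hne
      apply hd2
      intro hH
      apply hne
      rw [← hidx, hH, Subgroup.index_top])
    obtain ⟨t, ht⟩ : fac p k (Nat.card (W j)) (B j) ∣
        Finset.univ.lcm fun j => fac p k (Nat.card (W j)) (B j) :=
      Finset.dvd_lcm (f := fun j => fac p k (Nat.card (W j)) (B j)) (Finset.mem_univ j)
    refine ⟨t * x, ?_⟩
    rw [ht]
    push_cast
    rw [← hx]
    ring
  · -- lower bound
    apply Finset.lcm_dvd
    intro j _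
    obtain ⟨-, P1, _, _, _, _, hP1, ⟨e⟩⟩ := hj j
    have hfW : Fintype (W j) := Fintype.ofFinite (W j)
    obtain ⟨d, hd, hL⟩ := h4 p k P1 hP1 (W j) (B j) (hB j)
    have hcW : Fintype.card (W j) = Nat.card (W j) := Nat.card_eq_fintype_card.symm
    rw [hcW] at hd hL
    obtain ⟨a, ha⟩ := hcardW j
    obtain ⟨nb, hnb⟩ := (hB j).exists_card_eq
    obtain ⟨hNBpos, hNBdvd, hNBint⟩ := hBN j
    obtain ⟨b, -, hb⟩ := (Nat.dvd_prime_pow hpr).1 (hnb ▸ hNBdvd)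
    have hint := h2 p k (B j) (hB j) inferInstance
    have hL' : ∀ c ∈ condSet k (B j), ∀ (e : ℤ) (a : ℕ), 1 ≤ a → ¬ (p : ℤ) ∣ e →
        ∃ m : ℕ, ((p ^ a : ℕ) : ℤ) ∣ (m : ℤ) - e ∧
          ((m : ℝ) * c + (d : ℝ)) / (Nat.card (W j) : ℝ) ∈ condSet k (WreathProduct W B Q) := by
      intro c hc e' a' ha' he'
      obtain ⟨m, hm1, hm2⟩ := hL c hc e' a' ha' he'
      exact ⟨m, hm1, fin_condSet_iso e.symm hm2⟩
    have hmin : ∀ M : ℕ, 0 < M → (∀ c ∈ condSet k (B j), ∃ a : ℤ, (M : ℝ) * c = (a : ℝ)) →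
        NP k (B j) ∣ M := fun M hM hMc => (hNPU k (B j) M hM hMc).2
    unfold fac
    split_ifs with h
    · obtain ⟨hp2, hq1, -⟩ := h
      subst hp2
      exact fin_low1 ha hq1 hNint hint (hd hq1) hL'
    · exact fin_low2 ha hb hNint hNBint hmin hint hd hL' h

end Pool.Agent.Helper26.WR
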