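import Pool.Agent.Helper26.WR.Stmts

set_option autoImplicit false

/-! # The recursion for the conductors -/

namespace Pool.Agent.Helper26.WR

open Pool.Agent.Helper21.DN

universe u

theorem rec_phi {G : Type u} [Group G] [Fintype G] (s : G → ℕ) :
    (Fintype.card G : ℝ) * phi s (x0 s : ℝ) = (S1 s : ℝ) + (x0 s : ℝ) := by
  classical
  have hc : (Fintype.card G : ℝ) ≠ 0 := by
    have := Fintype.card_pos (α := G)
    positivity
  unfold phi
  rw [mul_div_cancel₀ _ hc]
  have : ∑ g ∈ Finset.univ.filter (fun g : G => g ≠ 1), min (s g : ℝ) (x0 s : ℝ) =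
      (S1 s : ℝ) := by
    unfold S1
    rw [Nat.cast_sum]
    apply Finset.sum_congr
    · ext g; simp
    · intro g hg
      apply min_eq_left
      have h1 : s g ≤ x0 s := by
        unfold x0
        apply Finset.le_sup (f := s)
        simpa using hg
      exact_mod_cast h1
  rw [add_comm]
  congr 1

theorem rec_le_x0 {G : Type u} [Group G] [Fintype G] (s : G → ℕ) (g : G) (hg : g ≠ 1) :
    s g ≤ x0 s := by
  classical
  unfold x0
  apply Finset.le_sup (f := s)
  simpa using hg

theorem rec_phi_mono (hPHM : ST_PHM.{u}) {G : Type u} [Group G] [Fintype G] (s : G → ℕ)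
    {a b : ℝ} (ha : 0 ≤ a) (hab : a ≤ b) : phi s a ≤ phi s b := by
  rcases eq_or_lt_of_le hab with h | h
  · rw [h]
  · exact (hPHM G s a b ha h).le

theorem st_REC (h1 : ST_CSF.{u}) (h2 : ST_BCF.{u}) (h3 : ST_TOPB.{u}) (h4 : ST_PHIC.{u})
    (h5 : ST_PAR.{u}) (hRAM : ST_RAM.{u}) (hCOND : ST_COND.{u}) (hCENT : ST_CENT.{u})
    (hRFV : ST_RFV.{u}) (hVAL : ST_VAL.{u}) (hTOW : ST_TOW.{u}) (hPHM : ST_PHM.{u}) :
    ST_REC.{u} := by
  intro p _ k _ _ _ P _ _ hP hPn c hc
  obtain ⟨L, _, _, hfd, hgal, ⟨i⟩, rfl⟩ := hc
  have hfd' : FiniteDimensional (LaurentSeries k) L := hfd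
  have hgal' : IsGalois (LaurentSeries k) L := hgal
  obtain ⟨v, hv, hR⟩ := hRAM k L
  have hpG : IsPGroup p (L ≃ₐ[LaurentSeries k] L) := hP.of_injective i.toMonoidHom i.injective
  have hnG : Nontrivial (L ≃ₐ[LaurentSeries k] L) := i.toEquiv.nontrivial
  have hcond := hCOND p k L v hv hR hpG hnG
  have hrf := hRFV p k (LaurentSeries k) L (κ0 k) v hR hpG
  obtain ⟨z', hz'c, hz'o, hz's⟩ := hCENT p (L ≃ₐ[LaurentSeries k] L)
    (fun σ : L ≃ₐ[LaurentSeries k] L => s v σ) hpG hnG hrf
  refine ⟨i z', ?_, ?_, ?_⟩
  · rw [Subgroup.mem_center_iff] at hz'c ⊢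
    intro g
    have := hz'c (i.symm g)
    have h := congrArg i this
    simpa using h
  · rw [MulEquiv.orderOf_eq, hz'o]
  · intro H B _ f hf hz hfz
    -- the subgroup of the Galois group
    set H' : Subgroup (L ≃ₐ[LaurentSeries k] L) := H.comap i.toMonoidHom with hH'
    let F : IntermediateField (LaurentSeries k) L := IntermediateField.fixedField H'
    have hFH : F.fixingSubgroup = H' := IntermediateField.fixingSubgroup_fixedField H'
    have hmemH' : ∀ σ : L ≃ₐ[LaurentSeries k] L, σ ∈ H' ↔
        ∀ x : F, σ (algebraMap F L x) = algebraMap F L x := by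
      intro σ
      rw [← hFH, IntermediateField.mem_fixingSubgroup_iff]
      constructor
      · intro h x
        exact h x x.2
      · intro h x hx
        exact h ⟨x, hx⟩
    have hres : ∀ σ : L ≃ₐ[F] L, i (AlgEquiv.restrictScalars (LaurentSeries k) σ) ∈ H := by
      intro σ
      have : AlgEquiv.restrictScalars (LaurentSeries k) σ ∈ H' := by
        rw [hmemH']
        intro x
        exact σ.commutes x
      exact this
    let g : (L ≃ₐ[F] L) →* H :=
      { toFun := fun σ => ⟨i (AlgEquiv.restrictScalars (LaurentSeries k) σ), hres σ⟩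
        map_one' := by
          apply Subtype.ext
          show i (AlgEquiv.restrictScalars (LaurentSeries k) (1 : L ≃ₐ[F] L)) = 1
          have : AlgEquiv.restrictScalars (LaurentSeries k) (1 : L ≃ₐ[F] L) = 1 := by
            ext x; rfl
          rw [this, map_one]
        map_mul' := by
          intro σ τ
          apply Subtype.ext
          show i (AlgEquiv.restrictScalars (LaurentSeries k) (σ * τ)) =
            i (AlgEquiv.restrictScalars (LaurentSeries k) σ) *
              i (AlgEquiv.restrictScalars (LaurentSeries k) τ)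
          rw [← map_mul]
          congr 1 }
    have hlift : ∀ σ : L ≃ₐ[LaurentSeries k] L, σ ∈ H' → ∃ τ : L ≃ₐ[F] L,
        AlgEquiv.restrictScalars (LaurentSeries k) τ = σ := by
      intro σ hσ
      have hσ' := (hmemH' σ).1 hσ
      refine ⟨AlgEquiv.ofRingEquiv (f := σ.toRingEquiv) hσ', ?_⟩
      ext x
      rfl
    have hgs : Function.Surjective g := by
      rintro ⟨y, hy⟩
      have hy' : i.symm y ∈ H' := by
        rw [hH', Subgroup.mem_comap]
        simpa using hy
      obtain ⟨τ, hτ⟩ := hlift _ hy'
      refine ⟨τ, ?_⟩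
      apply Subtype.ext
      show i (AlgEquiv.restrictScalars (LaurentSeries k) τ) = y
      rw [hτ]
      simp
    have hgi : Function.Injective g := by
      intro σ τ hστ
      have h := congrArg Subtype.val hστ
      have h' : AlgEquiv.restrictScalars (LaurentSeries k) σ =
          AlgEquiv.restrictScalars (LaurentSeries k) τ := i.injective h
      ext x
      exact congrArg (fun φ : L ≃ₐ[LaurentSeries k] L => φ x) h'
    let f' : (L ≃ₐ[F] L) →* B := f.comp g
    have hf's : Function.Surjective f' := hf.comp hgs
    have hpF : IsPGroup p (L ≃ₐ[F] L) :=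
      (hP.to_subgroup H).of_injective g hgi
    let N : IntermediateField F L := IntermediateField.fixedField f'.ker
    have hNfix : N.fixingSubgroup = f'.ker := IntermediateField.fixingSubgroup_fixedField f'.ker
    have hNgal : IsGalois F N := IsGalois.of_fixedField_normal_subgroup f'.ker
    let eN : (N ≃ₐ[F] N) ≃* B := (IsGalois.normalAutEquivQuotient f'.ker).symm.trans
      (QuotientGroup.quotientKerEquivOfSurjective f' hf's)
    have hres1 : ∀ σ : L ≃ₐ[F] L, AlgEquiv.restrictNormalHom N σ = 1 → f' σ = 1 := by
      intro σ hσ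
      have h0 := IsGalois.normalAutEquivQuotient_apply f'.ker σ
      have h1 : (IsGalois.normalAutEquivQuotient f'.ker) (σ : (L ≃ₐ[F] L) ⧸ f'.ker) = 1 := by
        rw [h0]
        exact hσ
      have h2 : (σ : (L ≃ₐ[F] L) ⧸ f'.ker) = 1 := by
        apply (IsGalois.normalAutEquivQuotient f'.ker).injective
        rw [h1, map_one]
      rw [QuotientGroup.eq_one_iff] at h2
      exact h2
    have hsepF : Algebra.IsSeparable (LaurentSeries k) F :=
      Algebra.isSeparable_tower_bot_of_isSeparable (LaurentSeries k) F L
    have hfdFN : FiniteDimensional F N := inferInstance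
    have hfdN : FiniteDimensional (LaurentSeries k) N :=
      FiniteDimensional.trans (LaurentSeries k) F N
    have hKN : IsScalarTower (LaurentSeries k) N L := by
      apply IsScalarTower.of_algebraMap_eq
      intro x
      rw [IsScalarTower.algebraMap_apply (LaurentSeries k) F N x,
        ← IsScalarTower.algebraMap_apply F N L,
        ← IsScalarTower.algebraMap_apply (LaurentSeries k) F L x]
    have hsepN : Algebra.IsSeparable (LaurentSeries k) N :=
      Algebra.isSeparable_tower_bot_of_isSeparable (LaurentSeries k) N L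
    obtain ⟨vN, hvN, hTVN⟩ := hVAL k N
    have hBn : Nontrivial B := ⟨⟨_, _, hfz⟩⟩
    have hNn : Nontrivial (N ≃ₐ[F] N) := eN.toEquiv.nontrivial
    have hpB : IsPGroup p B := hpF.of_surjective f' hf's
    have hpN : IsPGroup p (N ≃ₐ[F] N) := hpB.of_injective eN.toMonoidHom eN.injective
    have hc' := h1 p k F N vN hvN hpN hNn B ⟨eN⟩
    have hRF := h2 k (LaurentSeries k) F L (κ0 k) v hR
    have hTVN' : TV ((algebraMap F N).comp ((algebraMap (LaurentSeries k) F).comp (κ0 k))) vN := by
      rw [← RingHom.comp_assoc, ← IsScalarTower.algebraMap_eq (LaurentSeries k) F N]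
      exact hTVN
    have hrel : ∀ x : N, v (algebraMap N L x) = Module.finrank N L • vN x := by
      intro x
      rw [hv, hvN]
      exact hTOW k N L x
    obtain ⟨hT1, σ1, hσ1, hσ1e⟩ := h3 p k F N L ((algebraMap (LaurentSeries k) F).comp (κ0 k)) v
      hRF hpF vN hTVN' hrel hNn
    refine ⟨_, hc', ?_⟩
    obtain ⟨d, hd1, hd2⟩ := h5 p k L v hv hR hpG H'
    refine ⟨d, ?_, ?_⟩
    · -- phi_F (x0) = c'
      have hz'H : z' ∈ H' := hz
      obtain ⟨τ, hτ⟩ := hlift z' hz'H
      have hfτ : f' τ ≠ 1 := by
        show f (g τ) ≠ 1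
        have : g τ = ⟨i z', hz⟩ := by
          apply Subtype.ext
          show i (AlgEquiv.restrictScalars (LaurentSeries k) τ) = i z'
          rw [hτ]
        rw [this]
        exact hfz
      have hτN : AlgEquiv.restrictNormalHom N τ ≠ 1 := fun h => hfτ (hres1 τ h)
      have hsτ : s v τ = x0 (fun σ : L ≃ₐ[LaurentSeries k] L => s v σ) := by
        rw [← hz's]
        have : (τ : L → L) = (z' : L → L) := by
          rw [← hτ]
          rfl
        show s v τ = s v z'
        rw [this]
      have hle1 := hT1 τ hτN
      rw [hsτ] at hle1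
      have hσ1n : AlgEquiv.restrictScalars (LaurentSeries k) σ1 ≠ 1 := by
        intro h
        apply hσ1
        have : σ1 = 1 := by
          ext x
          exact congrArg (fun φ : L ≃ₐ[LaurentSeries k] L => φ x) h
        rw [this, map_one]
      have hsσ1 : s v σ1 ≤ x0 (fun σ : L ≃ₐ[LaurentSeries k] L => s v σ) :=
        rec_le_x0 (fun σ : L ≃ₐ[LaurentSeries k] L => s v σ) _ hσ1n
      have hle2 := rec_phi_mono hPHM (fun σ : L ≃ₐ[F] L => s v σ)
        (a := (s v σ1 : ℝ)) (b := (x0 (fun σ : L ≃ₐ[LaurentSeries k] L => s v σ) : ℝ))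
        (by positivity) (by exact_mod_cast hsσ1)
      rw [hσ1e] at hle2
      have heq := le_antisymm hle1 hle2
      have hPH := h4 (LaurentSeries k) F L v H' hmemH'
        (x0 (fun σ : L ≃ₐ[LaurentSeries k] L => s v σ) : ℝ) (by
          intro σ hσ
          have : σ ≠ 1 := by
            rintro rfl
            exact hσ H'.one_mem
          exact_mod_cast rec_le_x0 (fun σ : L ≃ₐ[LaurentSeries k] L => s v σ) _ this)
      rw [heq, rec_phi, hd1] at hPH
      have hcond' : conductor k L = ((S1 (fun σ : L ≃ₐ[LaurentSeries k] L => s v σ) : ℝ) +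
          (x0 (fun σ : L ≃ₐ[LaurentSeries k] L => s v σ) : ℝ)) /
            (Fintype.card (L ≃ₐ[LaurentSeries k] L) : ℝ) := hcond
      rw [hcond']
      have hcardG : (Fintype.card (L ≃ₐ[LaurentSeries k] L) : ℝ) =
          (Nat.card H' : ℝ) * (H.index : ℝ) := by
        have h := Subgroup.card_mul_index H'
        have hidx : H'.index = H.index :=
          Subgroup.index_comap_of_surjective H i.surjective
        rw [hidx] at h
        rw [← Nat.card_eq_fintype_card, ← h]
        push_cast
        ring
      have hcardF : (Fintype.card (L ≃ₐ[F] L) : ℝ) = (Nat.card H' : ℝ) := by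
        rw [← Nat.card_eq_fintype_card]
        have ha : Nat.card (L ≃ₐ[F] L) = Nat.card H :=
          Nat.card_congr (Equiv.ofBijective g ⟨hgi, hgs⟩)
        have hb : Nat.card H' = Nat.card H := by
          have h := Subgroup.card_mul_index H'
          have h' := Subgroup.card_mul_index H
          have hidx : H'.index = H.index :=
            Subgroup.index_comap_of_surjective H i.surjective
          have hcc : Nat.card (L ≃ₐ[LaurentSeries k] L) = Nat.card P :=
            Nat.card_congr i.toEquiv
          rw [hcc, ← h', hidx] at h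
          have hpos : 0 < H.index := Nat.pos_of_ne_zero Subgroup.index_ne_zero_of_finite
          exact Nat.eq_of_mul_eq_mul_right hpos h
        rw [ha, hb]
      have hcpos : (Nat.card H' : ℝ) ≠ 0 := by
        have : 0 < Nat.card H' := Nat.card_pos
        positivity
      have hipos : (H.index : ℝ) ≠ 0 := by
        have : H.index ≠ 0 := Subgroup.index_ne_zero_of_finite
        exact_mod_cast this
      rw [hcardF] at hPH
      push_cast at hPH
      rw [hPH, hcardG]
      field_simp
    · intro hHtop
      apply hd2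
      intro hH't
      apply hHtop
      rw [eq_top_iff]
      intro y _
      have : i.symm y ∈ H' := by
        rw [hH't]
        exact Subgroup.mem_top _
      rw [hH', Subgroup.mem_comap] at this
      simpa using this

end Pool.Agent.Helper26.WR
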